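import Pool.Agent.W397.EO.Stm

/-!
# Chain rule for the entropy and the uniform bound (part EO-ENT)
-/

set_option autoImplicit false

namespace Pool.Agent.W876.EO

open Finset Pool.Agent.W397.EO

theorem sum_inv_card {X Y : Type} [DecidableEq X] [DecidableEq Y] (C : Finset X) (g : X → Y) :
    ∑ x ∈ C, (1 : ℝ) / ((C.filter (fun x' => g x' = g x)).card : ℝ) = ((C.image g).card : ℝ) := by
  classical
  rw [← Finset.sum_fiberwise_of_maps_to (s := C) (t := C.image g) (g := g)
    (fun x hx => Finset.mem_image_of_mem g hx)]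
  rw [Finset.card_eq_sum_ones, Nat.cast_sum]
  refine Finset.sum_congr rfl ?_
  intro z hz
  obtain ⟨x0, hx0, rfl⟩ := Finset.mem_image.mp hz
  have hpos : (0 : ℝ) < ((C.filter (fun x' => g x' = g x0)).card : ℝ) := by
    have : 0 < (C.filter (fun x' => g x' = g x0)).card :=
      Finset.card_pos.mpr ⟨x0, by simp [hx0]⟩
    exact_mod_cast this
  have : ∑ x ∈ C.filter (fun x' => g x' = g x0),
      (1 : ℝ) / ((C.filter (fun x' => g x' = g x)).card : ℝ) =
      ∑ x ∈ C.filter (fun x' => g x' = g x0),
      (1 : ℝ) / ((C.filter (fun x' => g x' = g x0)).card : ℝ) := by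
    refine Finset.sum_congr rfl ?_
    intro x hx
    have hx' := (Finset.mem_filter.mp hx).2
    rw [hx']
  rw [this, Finset.sum_const, nsmul_eq_mul]
  field_simp
  simp

theorem main : Pool.Agent.W397.EO.S_ENT := by
  intro X Y _ _ A n r M h0 hn hstep hM hcard
  classical
  set c : ℕ → X → ℝ := fun i x => ((A.filter (fun x' => r i x' = r i x)).card : ℝ) with hc
  have cpos : ∀ i, ∀ x ∈ A, 1 ≤ c i x := by
    intro i x hx
    have h1 : 0 < (A.filter (fun x' => r i x' = r i x)).card :=
      Finset.card_pos.mpr ⟨x, by simp [hx]⟩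
    simp only [hc]
    exact_mod_cast h1
  have c0 : ∀ x ∈ A, c 0 x = A.card := by
    intro x hx
    simp only [hc]
    rw [Finset.filter_true_of_mem]
    intro x' hx'
    exact h0 x' hx' x hx
  have cn : ∀ x ∈ A, c n x = 1 := by
    intro x hx
    have h1 : A.filter (fun x' => r n x' = r n x) = {x} := by
      ext x'
      simp only [mem_filter, mem_singleton]
      constructor
      · rintro ⟨h1, h2⟩
        exact hn x' h1 x hx h2
      · rintro rfl
        exact ⟨hx, rfl⟩
    simp [hc, h1]
  have tele : ∀ x ∈ A, Real.log A.card =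
      ∑ i ∈ Finset.range n, (Real.log (c i x) - Real.log (c (i + 1) x)) := by
    intro x hx
    rw [Finset.sum_range_sub' (fun i => Real.log (c i x)) n]
    rw [c0 x hx, cn x hx]
    simp
  have main1 : (A.card : ℝ) * Real.log A.card =
      ∑ i ∈ Finset.range n, ∑ x ∈ A, (Real.log (c i x) - Real.log (c (i + 1) x)) := by
    rw [Finset.sum_comm, ← nsmul_eq_mul, ← Finset.sum_const]
    exact Finset.sum_congr rfl tele
  rw [main1]
  apply Finset.sum_le_sum
  intro i hi
  have hi' := Finset.mem_range.mp hi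
  have Mpos : ∀ x ∈ A, 1 ≤ M i x := by
    intro x hx
    refine le_trans ?_ (hcard i hi' x hx)
    have h1 : (r (i + 1) x) ∈ ((A.filter (fun x' => r i x' = r i x)).image (r (i + 1))) :=
      Finset.mem_image_of_mem _ (by simp [hx])
    have h2 : 0 < ((A.filter (fun x' => r i x' = r i x)).image (r (i + 1))).card :=
      Finset.card_pos.mpr ⟨_, h1⟩
    exact_mod_cast h2
  have key : ∑ x ∈ A, c i x / (c (i + 1) x * M i x) ≤ (A.card : ℝ) := by
    rw [← Finset.sum_fiberwise_of_maps_to (s := A) (t := A.image (r i)) (g := r i)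
      (fun x hx => Finset.mem_image_of_mem _ hx)]
    rw [Finset.card_eq_sum_card_image (r i) A, Nat.cast_sum]
    apply Finset.sum_le_sum
    intro y hy
    obtain ⟨x0, hx0, rfl⟩ := Finset.mem_image.mp hy
    have e1 : ∀ x ∈ A.filter (fun x' => r i x' = r i x0),
        c i x / (c (i + 1) x * M i x) =
        (((A.filter (fun x' => r i x' = r i x0)).card : ℝ) / M i x0) *
        ((1 : ℝ) / (((A.filter (fun x' => r i x' = r i x0)).filter
          (fun x' => r (i + 1) x' = r (i + 1) x)).card : ℝ)) := by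
      intro x hx
      obtain ⟨hxA, hxr⟩ := Finset.mem_filter.mp hx
      have e2 : M i x = M i x0 := hM i hi' x hxA x0 hx0 hxr
      have e3 : (A.filter (fun x' => r i x' = r i x0)).filter
          (fun x' => r (i + 1) x' = r (i + 1) x) =
          A.filter (fun x' => r (i + 1) x' = r (i + 1) x) := by
        ext x'
        simp only [mem_filter]
        constructor
        · rintro ⟨⟨h1, _⟩, h3⟩
          exact ⟨h1, h3⟩
        · rintro ⟨h1, h3⟩
          exact ⟨⟨h1, (hstep i hi' x' h1 x hxA h3).trans hxr⟩, h3⟩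
      rw [e2, e3]
      simp only [hc]
      rw [hxr]
      rw [div_mul_div_comm, mul_one, mul_comm (M i x0)]
    rw [Finset.sum_congr rfl e1, ← Finset.mul_sum, sum_inv_card]
    have h4 := hcard i hi' x0 hx0
    have h5 := Mpos x0 hx0
    have h6 : (0 : ℝ) ≤ ((A.filter (fun x' => r i x' = r i x0)).card : ℝ) := Nat.cast_nonneg _
    rw [div_mul_eq_mul_div, div_le_iff₀ (by linarith)]
    exact mul_le_mul_of_nonneg_left h4 h6
  have pt : ∀ x ∈ A, Real.log (c i x) - Real.log (c (i + 1) x) ≤
      Real.log (M i x) + (c i x / (c (i + 1) x * M i x) - 1) := by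
    intro x hx
    have h1 : (0 : ℝ) < c i x := lt_of_lt_of_le one_pos (cpos i x hx)
    have h2 : (0 : ℝ) < c (i + 1) x := lt_of_lt_of_le one_pos (cpos (i + 1) x hx)
    have h3 : (0 : ℝ) < M i x := lt_of_lt_of_le one_pos (Mpos x hx)
    have hp : 0 < c i x / (c (i + 1) x * M i x) := by positivity
    have h4 := Real.log_le_sub_one_of_pos hp
    rw [Real.log_div h1.ne' (mul_pos h2 h3).ne', Real.log_mul h2.ne' h3.ne'] at h4
    linarith
  calc ∑ x ∈ A, (Real.log (c i x) - Real.log (c (i + 1) x))
      ≤ ∑ x ∈ A, (Real.log (M i x) + (c i x / (c (i + 1) x * M i x) - 1)) :=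
        Finset.sum_le_sum pt
    _ = ∑ x ∈ A, Real.log (M i x) +
        (∑ x ∈ A, c i x / (c (i + 1) x * M i x) - (A.card : ℝ)) := by
        rw [Finset.sum_add_distrib, Finset.sum_sub_distrib]
        simp
    _ ≤ ∑ x ∈ A, Real.log (M i x) := by linarith

end Pool.Agent.W876.EO
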